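import Pool.Agent.P8H30.OX.Base
import Pool.Agent.P8H30.MX.Asm

/-!
# Project OX: assembly
-/

set_option autoImplicit false

open PowerSeries Module Matrix

namespace Pool.Agent.P8H30.OX

open Pool.Agent.Y113 (SDc)
open Pool.Agent.Y119.HY (kx aq)
open Pool.Agent.Y119.HZ (Hp)
open Pool.Agent.P8H30.MX (QG HC BG S_FIN)

theorem asm' (hOSD : S_OSD) (hOWI : S_OWI) (hFIN : S_FIN) (m : ℕ) (hm : 1 ≤ m) (s : ℕ) (α : Fin m → ℚ)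
    (hα : ∀ j, ∀ a : ℤ, α j ≠ a) (c : ℕ) (hc : 1 ≤ c) :
    ∃ G : ℕ, ∀ k δ D : ℕ,
      (∃ (κ : ℝ) (M₀ : ℕ), 0 < κ ∧ c < M₀ ∧ ∀ M : ℕ, M₀ ≤ M →
        ∀ Ω : Matrix (Fin (s + (2 * m + 1))) (Fin (s + (2 * m + 1))) ℂ, IsUnit Ω →
          BG (s + (2 * m + 1)) (aq (s + (2 * m + 1)) (Polynomial.X ^ s * Qo α)) c Ω G k δ D
            ((k - 1) * ((2 * m + 1) * (2 * m + 1 - 1) / 2 + s * (2 * m + 1) + 1)) κ M) ∧
      ∀ Ω : Matrix (Fin (s + (2 * m + 1))) (Fin (s + (2 * m + 1))) ℂ, IsUnit Ω → ∀ (t : ℕ) (ω : Fin t → ℂ),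
        (∀ i j, IsAlgebraic (Algebra.adjoin ℚ (Set.range ω)) (Ω i j)) →
        ∃ (κ : ℝ) (M₀ : ℕ), 0 < κ ∧ c < M₀ ∧ ∀ M : ℕ, M₀ ≤ M →
          BG (s + (2 * m + 1)) (aq (s + (2 * m + 1)) (Polynomial.X ^ s * Qo α)) c Ω G k δ D
            (k * ((2 * m + 1) * (2 * m + 1 - 1) / 2 + s * (2 * m + 1) + 1) - (t + 1)) κ M := by
  obtain ⟨hQ, γ, hγ, hQγ⟩ := o_qob m α hm hα
  have hG : QG (s + (2 * m + 1)) (Polynomial.X ^ s * Qo α) := by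
    refine ⟨by omega, (Polynomial.monic_X_pow s).mul hQ.monic, ?_⟩
    rw [(Polynomial.monic_X_pow s).natDegree_mul hQ.monic, Polynomial.natDegree_X_pow, hQ.deg]
  obtain ⟨hS1, hS2⟩ := hOSD s (2 * m + 1) γ (by omega) hγ
  rw [← hQγ] at hS1 hS2
  obtain ⟨W, h1, h2, h3⟩ := hOWI s (2 * m + 1) (Qo α) hQ hS1 hS2
  obtain ⟨T, hT⟩ := o_oin s (2 * m + 1) (Qo α) hQ
  refine hFIN (s + (2 * m + 1)) (Polynomial.X ^ s * Qo α) 1 (aq (s + (2 * m + 1)) (Polynomial.X ^ s * Qo α)) W _ T c hG h2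
    h1 h3 hT ?_ ?_ (fun k => ?_) hc
  · rw [Polynomial.eval_one]
    exact one_ne_zero
  · unfold aq
    rw [Finset.prod_range_zero]
  · rw [map_one, map_one]

end Pool.Agent.P8H30.OX
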