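import Pool.Agent.P8H30.OX.Asm
import Pool.Agent.P8H71.OX.Owi
import Pool.Agent.P8H45.OX.Osd

/-!
# Project OX: final assembly
-/

set_option autoImplicit false

open PowerSeries Module Matrix

namespace Pool.Agent.P8H30.OX

open Pool.Agent.Y119.HY (aq)
open Pool.Agent.P8H30.MX (BG t_finall t_blk sol)

theorem asm (m : ℕ) (hm : 1 ≤ m) (s : ℕ) (α : Fin m → ℚ)
    (hα : ∀ j, ∀ a : ℤ, α j ≠ a) (c : ℕ) (hc : 1 ≤ c) :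
    ∃ G : ℕ, ∀ k δ D : ℕ,
      (∃ (κ : ℝ) (M₀ : ℕ), 0 < κ ∧ c < M₀ ∧ ∀ M : ℕ, M₀ ≤ M →
        ∀ Ω : Matrix (Fin (s + (2 * m + 1))) (Fin (s + (2 * m + 1))) ℂ, IsUnit Ω →
          BG (s + (2 * m + 1)) (aq (s + (2 * m + 1)) (Polynomial.X ^ s * Qo α)) c Ω G k δ D
            ((k - 1) * ((2 * m + 1) * (2 * m + 1 - 1) / 2 + s * (2 * m + 1) + 1)) κ M) ∧
      ∀ Ω : Matrix (Fin (s + (2 * m + 1))) (Fin (s + (2 * m + 1))) ℂ, IsUnit Ω → ∀ (t : ℕ) (ω : Fin t → ℂ),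
        (∀ i j, IsAlgebraic (Algebra.adjoin ℚ (Set.range ω)) (Ω i j)) →
        ∃ (κ : ℝ) (M₀ : ℕ), 0 < κ ∧ c < M₀ ∧ ∀ M : ℕ, M₀ ≤ M →
          BG (s + (2 * m + 1)) (aq (s + (2 * m + 1)) (Polynomial.X ^ s * Qo α)) c Ω G k δ D
            (k * ((2 * m + 1) * (2 * m + 1 - 1) / 2 + s * (2 * m + 1) + 1) - (t + 1)) κ M :=
  asm' (Pool.Agent.P8H45.OX.osd sol t_blk) (Pool.Agent.P8H71.OX.owi o_frp o_jz t_blk) t_finall m hm s α hα c hc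

end Pool.Agent.P8H30.OX
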