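import Pool.Agent.P8H30.MX.Base
import Pool.Agent.P8H88.OX.Alr
import Pool.Agent.P8H88.OX.Rf
import Pool.Agent.P8H88.OX.Pln
import Pool.Agent.P8H21.OX.Conn
import Pool.Agent.P8H21.OX.Loc
import Pool.Agent.P8H21.OX.Sno
import Pool.Agent.P8H49.OX.Frp
import Pool.Agent.P8H49.OX.Jem
import Pool.Agent.P8H49.OX.Mon
import Pool.Agent.P8H49.OX.Qob
import Pool.Agent.P8H5.OX.Gcl
import Pool.Agent.P8H5.OX.Oco
import Pool.Agent.P8H5.OX.Ogn
import Pool.Agent.P8H29.OX.Ohy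
import Pool.Agent.P8H29.OX.Oin
import Pool.Agent.P8H29.OX.Rfl
import Pool.Agent.P8H29.OX.Rjc

/-!
# Project OX: the packages together
-/

set_option autoImplicit false

namespace Pool.Agent.P8H30.OX

open Pool.Agent.P8H30.MX (t_dual t_ebl t_hfb t_rel t_blk sol ode cvh)

theorem o_jem : S_JEM := Pool.Agent.P8H49.OX.jem
theorem o_jz : S_JZ := Pool.Agent.P8H49.OX.jz
theorem o_frp : S_FRP := Pool.Agent.P8H49.OX.frp o_jem o_jz ode
theorem o_frh : S_FRH := Pool.Agent.P8H49.OX.frh o_frp cvh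
theorem o_con : S_CON1 := Pool.Agent.P8H21.OX.con1 Pool.Agent.P8H21.OX.loc Pool.Agent.P8H21.OX.hod t_dual
theorem o_sno : S_SNO := Pool.Agent.P8H21.OX.sno sol t_hfb t_ebl
theorem o_rjc : S_RJC := Pool.Agent.P8H29.OX.rjc o_frh o_jz t_hfb t_ebl
theorem o_rfl : S_RFL := Pool.Agent.P8H29.OX.rfl' o_con Pool.Agent.P8H49.OX.mon o_rjc o_sno o_jz sol
theorem o_alr : S_ALR := Pool.Agent.P8H88.OX.alr Pool.Agent.P8H88.OX.pln Pool.Agent.P8H88.OX.ctb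
theorem o_ogn : S_OGN := Pool.Agent.P8H5.OX.ogn Pool.Agent.P8H88.OX.cd
theorem o_ohy : S_OHY := Pool.Agent.P8H29.OX.ohy o_rfl o_alr Pool.Agent.P8H5.OX.gcl o_ogn o_jz sol
theorem o_oin : S_OIN := Pool.Agent.P8H29.OX.oin o_ohy o_frh o_jz Pool.Agent.P8H5.OX.Oco.oco t_rel t_hfb t_ebl
theorem o_qob : S_QOB := Pool.Agent.P8H49.OX.qob

end Pool.Agent.P8H30.OX
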