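import Pool.Agent.P8H30.MX.Stm

/-!
# Project OX: hypergeometric motives of odd rank (orthogonal case), pure and mixed, at all tuples of fibres

`n ≥ 3` is odd, `Q` is a monic polynomial of degree `n` with `Q (-1 - θ) = -Q θ` and without roots at the natural numbers. The operator
`θ^n - z Q(θ)` has at `z = 1` a reflection as local monodromy (exponents `0, 1, …, n - 2, (n - 2) / 2`), and its monodromy group
is orthogonal. Notation of project MX (`Pool/Agent/P8H30/MX/Stm.lean`) and of the starting files `Y119/HY`.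

The statements are the propositions `S_...`; complete proofs are sketched in the docstrings. Put a package in its own file
`Pool/Agent/P8H<your number>/OX/<Name>.lean` (import this file), with a theorem of the exact type given in the task table.
-/

set_option autoImplicit false

open PowerSeries Module Matrix

namespace Pool.Agent.P8H30.OX

open Pool.Agent.Y113 (SDc Cv)
open Pool.Agent.Y119.HY (Am um uc ec kx aq hq Hq Hc Hf Yf E om Sol Lens Gal cm PG HD Gm)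
open Pool.Agent.Y119.HZ (Hp ix evq hf km th)
open Pool.Agent.P8H30.MX (QG bl HC es)

/-- monic polynomials of odd degree `n` which are odd about `-1/2`, without roots at the natural numbers -/
structure QO (n : ℕ) (Q : Polynomial ℚ) : Prop where
  three : 3 ≤ n
  odd : Odd n
  monic : Q.Monic
  deg : Q.natDegree = n
  sym : Q.comp (-1 - Polynomial.X) = -Q
  sub : Q.coeff (n - 1) = (n : ℚ) / 2
  ne : ∀ l : ℕ, Q.eval (l : ℚ) ≠ 0

theorem QO.toG {n : ℕ} {Q : Polynomial ℚ} (h : QO n Q) : QG n Q := ⟨by have := h.three; omega, h.monic, h.deg⟩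

/-! ### the form -/

/-- the form at `z = 0` -/
def J0q (n : ℕ) : Matrix (Fin n) (Fin n) ℚ := Matrix.of fun i j => if (i : ℕ) + j + 1 = n then (-1) ^ (i : ℕ) else 0

/-- the same, complex -/
noncomputable def J0 (n : ℕ) : Matrix (Fin n) (Fin n) ℂ := cm (J0q n)

/-- the form is `J0 - z Em`; the entry `(i, j)` of `Em` is the coefficient of `a^i b^j` in `(Q(a) + Q(b)) / (a + b + 1)` -/
noncomputable def Em (n : ℕ) (Q : Polynomial ℚ) : Matrix (Fin n) (Fin n) ℚ := Matrix.of fun i j =>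
  ∑ k ∈ Finset.Ico ((i : ℕ) + 1) (n + 1), Q.coeff k * ((-1 - Polynomial.X : Polynomial ℚ) ^ (k - 1 - (i : ℕ))).coeff (j : ℕ)

/-- JEM. Let `e_i = ∑_{k = i+1}^{n} q_k (-1 - X)^(k-1-i)`, a polynomial; `Em i j = coeff_j e_i`. Then `e_{i-1} + (1 + X) e_i = q_i`
for `1 ≤ i`, and `(1 + X) e_0 = q_0 - Q(-1 - X) = q_0 + Q(X)`. Taking coefficients for `i, j < n`:
`(Amᵀ Em + Em Am + Em) i j = Em (i-1) j + Em i (j-1) + Em i j = q_i [j = 0] + q_j [i = 0]` (entries with index `-1` are `0`).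
And `(Bmᵀ M + M Bm) i j = q_i M (n-1) j + q_j M i (n-1)`; for `M = J0q` and for `M = Em` one has `M (n-1) j = [j = 0]` and
`M i (n-1) = [i = 0]` (`n` is odd, `e_i` has degree `n - 1 - i` and leading coefficient `(-1)^(n-1-i)`). -/
def S_JEM : Prop := ∀ (n : ℕ) (Q : Polynomial ℚ), QO n Q →
  (Pool.Agent.Y119.HY.Bm n Q).transpose * J0q n + J0q n * Pool.Agent.Y119.HY.Bm n Q =
      Em n Q + ((Am n).transpose * Em n Q + Em n Q * Am n) ∧
  (Pool.Agent.Y119.HY.Bm n Q).transpose * Em n Q + Em n Q * Pool.Agent.Y119.HY.Bm n Q =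
      Em n Q + ((Am n).transpose * Em n Q + Em n Q * Am n)

/-- JZ. Elementary. (`J0q` has one nonzero entry in each row and column: `J0q * J0q = 1` for odd `n`, so `det ≠ 0`.) -/
def S_JZ : Prop := ∀ n : ℕ, Odd n → (Am n).transpose * J0q n + J0q n * Am n = 0 ∧ (J0q n).transpose = J0q n ∧
  J0q n * J0q n = 1 ∧ (cm (Am n)).transpose * J0 n + J0 n * cm (Am n) = 0 ∧ (J0 n).transpose = J0 n ∧ J0 n * J0 n = 1 ∧
  (J0 n).det ≠ 0

/-- FRP. Copy of `form_Hp` in `Y119/HY/Inv.lean`. With `H = Hp n Q`, `𝒥 = km J0q - X • km Em`, `G = (1 - X) km Am + X km Bm`: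
`(1 - X) th H = G H - (1 - X) H km Am` (`S_ODE` of MX), `th 𝒥 = -X • km Em`, and
`Gᵀ 𝒥 + 𝒥 G - X (1 - X) km Em = 0` (JEM, JZ; a polynomial identity in `X` of degree `2`). So `Z = Hᵀ 𝒥 H` satisfies
`(1 - X) (th Z + Amᵀ Z + Z Am) = 0`, hence `th Z + Amᵀ Z + Z Am = 0`, the coefficients of positive index vanish
(`nil_zero`), and the constant coefficient is `J0q` (`Hq_zero`). -/
def S_FRP : Prop := ∀ (n : ℕ) (Q : Polynomial ℚ), QO n Q →
  (Hp n Q).transpose * (km (J0q n) - (X : ℚ⟦X⟧) • km (Em n Q)) * Hp n Q = km (J0q n)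

/-- FRH. Evaluation of FRP at `x` (`ev_Hp`, `Cv.ev_mul`, `Cv.ev_add`, `Cv.ev_sum`, `ev_coe` as in `Y119/HY/Rl.lean` and
`P8H40/HA/Val.lean`, with `t = 1 / x`, and `S_CVH` of MX). -/
def S_FRH : Prop := ∀ (n : ℕ) (Q : Polynomial ℚ), QO n Q → ∀ x : ℝ, 0 < x → x < 1 →
  (Hf (Hc n Q) (x : ℂ)).transpose * (J0 n - (x : ℂ) • cm (Em n Q)) * Hf (Hc n Q) (x : ℂ) = J0 n

/-! ### local theory at the reflection point -/

/-- LOC. Copy of `exists_sol` and `Sol.growth` in `Y119/HY/Loc.lean` with another inverse of `κ + D`, `D = DD N0`. Let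
`λ = p + 1/2`. From `N0 N0 = λ N0` one gets `D (D (D Y)) = λ^2 D Y`, so for `κ = k + 1` the inverse of `κ + D` is
`R Y = κ⁻¹ Y - (κ^2 - λ^2)⁻¹ D Y + (κ (κ^2 - λ^2))⁻¹ D (D Y)`; here `|κ^2 - λ^2| ≥ κ / 2` as `|κ ± λ| ≥ 1/2` and one of them is
`≥ κ`. So `‖R Y‖ ≤ (C / κ) ‖Y‖`, and the recursion `H (k+1) = H k + R ((N1 - 1) H k)` gives polynomial growth. -/
def S_LOC : Prop := ∀ (n : ℕ) (N0 N1 : Matrix (Fin n) (Fin n) ℂ) (p : ℤ), N0 * N0 = ((p : ℂ) + 1 / 2) • N0 →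
  ∃ H : ℕ → Matrix (Fin n) (Fin n) ℂ, Sol N0 N1 H ∧ ∀ i j, PG fun k => H k i j

/-- HOD. Copy of `Hf_ode` in `Y119/HY/Loc.lean` (the hypothesis `N0 ^ n = 0` is used there only for the growth). -/
def S_HOD : Prop := ∀ (n : ℕ) (N0 N1 : Matrix (Fin n) (Fin n) ℂ) (H : ℕ → Matrix (Fin n) (Fin n) ℂ), Sol N0 N1 H →
  (∀ i j, PG fun k => H k i j) → ∀ z : ℂ, ‖z‖ < 1 → z ≠ 0 →
    HD (Hf H) ((1 / z) • (N0 * Hf H z - Hf H z * N0) + (1 / (1 - z)) • (N1 * Hf H z)) z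

/-- `exp (ζ N)` for `N * N = lam • N` -/
noncomputable def Xp {n : ℕ} (lam : ℂ) (N : Matrix (Fin n) (Fin n) ℂ) (ζ : ℂ) : Matrix (Fin n) (Fin n) ℂ :=
  1 + ((Complex.exp (lam * ζ) - 1) / lam) • N

/-- CON1. Take `K` from LOC for `(-B, -A)`, `Z z = Hf K (1 - z) * Xp λ (-B) (log (1 - z))`, `λ = p + 1/2`. By HOD (and
`d/dζ Xp λ N ζ = N * Xp λ N ζ`), `HD Z (Gm A B z * Z z) z` on the lens (as for `Z` in `connect` in `Y119/HY/Gal.lean`). Take `H'` from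
`exists_sol` for `(-Aᵀ, -Bᵀ)` and `Y' = Yf (-Aᵀ) H'`; by `S_DUAL` of MX, `Y'ᵀ * Yf A H = 1` on the lens. `C = Y'(z)ᵀ * Z z`
is constant on the lens (`const_Lens`), so `Z z = Yf A H z * C`. For real `w` near `0` the matrix `Hf K w` is invertible
(continuity of the determinant, `K 0 = 1`) and `Xp ζ * Xp (-ζ) = 1`, so `C` is invertible; `M = C⁻¹`. -/
def S_CON1 : Prop := ∀ (n : ℕ) (A B : Matrix (Fin n) (Fin n) ℂ) (H : ℕ → Matrix (Fin n) (Fin n) ℂ) (p : ℤ), A ^ n = 0 →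
  (-B) * (-B) = ((p : ℂ) + 1 / 2) • (-B) → Sol A B H →
    ∃ (K : ℕ → Matrix (Fin n) (Fin n) ℂ) (M Mi : Matrix (Fin n) (Fin n) ℂ), (∀ i j, PG fun k => K k i j) ∧ M * Mi = 1 ∧
      Mi * M = 1 ∧ ∀ z ∈ Lens, Yf A H z = Hf K (1 - z) * Xp ((p : ℂ) + 1 / 2) (-B) (Complex.log (1 - z)) * M

/-- MON. Let `P ∈ Rel Y`. The function `F ζ = ev P (1 - e^ζ) (log (1 - e^ζ)) (Hf K (e^ζ) * Xp λ N ζ * M)` is analytic on the convex
half plane `Re ζ < 0` (`‖e^ζ‖ < 1`, so `1 - e^ζ` is in the slit plane and `Hf K` is analytic there, `ps_an`), and it vanishes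
for real `ζ < 0` (`x = 1 - e^ζ` is in `(0, 1)`), so it vanishes on the half plane (identity theorem). Put
`ζ = log (1 - x) + 2 π i`: `e^ζ = 1 - x` and `Xp λ N (a + 2 π i) = Xp λ N a * (1 - (2 / λ) • N)`, as `e^{2 π i λ} = -1`. -/
def S_MON : Prop := ∀ (n : ℕ) (N : Matrix (Fin n) (Fin n) ℂ) (K : ℕ → Matrix (Fin n) (Fin n) ℂ)
  (M Mi : Matrix (Fin n) (Fin n) ℂ) (Y : ℂ → Matrix (Fin n) (Fin n) ℂ) (p : ℤ), N * N = ((p : ℂ) + 1 / 2) • N →
    (∀ i j, PG fun k => K k i j) → M * Mi = 1 →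
      (∀ x : ℝ, 0 < x → x < 1 → Y (x : ℂ) = Hf K (1 - (x : ℂ)) * Xp ((p : ℂ) + 1 / 2) N (Complex.log (1 - (x : ℂ))) * M) →
        Mi * (1 - (2 / ((p : ℂ) + 1 / 2)) • N) * M ∈ Gal Y

/-- SNO. As `sing` in `Y119/HY/Data2.lean` and `S_SNG` of MX (second part): the entry `(s, s)` of `Yf` is `ps` of the sequence
`a0 n Q k`, which has a constant sign for large `k` and ratios tending to `1`. (`ratio`, `a0_ne`, `a0_succ` use only `monic`,
`deg`, `ne`.) -/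
def S_SNO : Prop := ∀ (s n : ℕ) (Q : Polynomial ℚ) (i0 : Fin (s + n)), QG n Q → (∀ l : ℕ, Q.eval (l : ℚ) ≠ 0) → (i0 : ℕ) = s →
  ∀ g : ℂ → ℂ, AnalyticOnNhd ℂ g (Metric.ball 1 1) →
    (∀ z ∈ Lens, (Yf (cm (Am (s + n))) (Hc (s + n) (Polynomial.X ^ s * Q)) z *ᵥ es s n) i0 = g z) → False

/-- RJC. Every element of `Gal Y`, `Y = Yf (cm (Am (s + n))) (Hc (s + n) (X ^ s * Q))`, is of the form `bl 1 b g` with `g` orthogonal.
For `x` in `(0, 1)`, `Y x = bl 1 b₀ h * bl P R T` with `h = Hf (Hc n Q) x`, `T = E (cm (Am n)) (log x)`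
(`S_HFB`, `S_EBL` of MX), so (a) `(Y x) i j = E (cm (Am (s + n))) (log x) i j` for all `i` and all `j < s`, and
(b) `(Y x)ᵀ * bl 0 0 (J0 n - x • cm (Em n Q)) * Y x = bl 0 0 (J0 n)` (FRH and `E_isom`). Both are relations, that is elements
`P` of `Rel Y` (for (a): `X (some (some (i, j))) - aeval (X (some none)) (Ep (cm (Am _)) i j)`, see `PR` in
`Y119/HY/Rl.lean`; for (b): quadratic in the entries with coefficients linear in `X none`). So for `R ∈ Gal Y` they hold for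
`Y x * R`. `Y x` is invertible (`h` is, by FRH and `det (J0 n) ≠ 0`), so (a) gives `R e_j = e_j` for `j < s`, that is
`R = bl 1 b g`, and (b) gives `Rᵀ * bl 0 0 (J0 n) * R = bl 0 0 (J0 n)`, that is `gᵀ J0 g = J0`. -/
def S_RJC : Prop := ∀ (s n : ℕ) (Q : Polynomial ℚ), QO n Q →
  ∀ R ∈ Gal (Yf (cm (Am (s + n))) (Hc (s + n) (Polynomial.X ^ s * Q))),
    ∃ (b : Matrix (Fin s) (Fin n) ℂ) (g : Matrix (Fin n) (Fin n) ℂ), R = bl 1 b g ∧ g.transpose * J0 n * g = J0 n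

/-- reflections -/
noncomputable def rf {d : ℕ} (J : Matrix (Fin d) (Fin d) ℂ) (x : Fin d → ℂ) : Matrix (Fin d) (Fin d) ℂ :=
  1 - (2 / om J x x) • vecMulVec x (x ᵥ* J)

/-- RFL. `B = Bm (s + n) (X ^ s * Q)` is `u ⊗ q`, `u = uc (s + n)` the last basis vector, `q` the last row, `q(u) = n / 2`
(`QO.sub`), so `(-B) (-B) = -(n / 2) (-B)` and `-(n / 2) = p + 1/2` with `p = -(n + 1) / 2`. Take `K, M, Mi` from CON1 (with `S_SOL`
of MX and `Ac_nil`). By MON, `R = Mi (1 + (4 / n) (-B)) M = 1 - (2 / ψ(v)) v ⊗ ψ ∈ Gal Y` with `v = Mi u`, `ψ = q M`,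
`ψ(v) = q(u) = n / 2 ≠ 0`. By RJC, `ψ_j = 0` for `j < s` (as `v ≠ 0`) and `Rᵀ J R = J` for `J = bl 0 0 (J0 n)`, that is
`ψ ⊗ χ + χ ⊗ ψ = 0` for `χ = v J - ((v, v) / ψ(v)) ψ`, so `χ = 0` (`ψ ≠ 0`). If `(v, v) = 0`, then `v J = 0`, the lower part of
`v` is zero and `ψ(v) = 0`, a contradiction. So `(v, v) ≠ 0`, `ψ = (ψ(v) / (v, v)) v J` and `R = rf J v`. If
`ψ(es s n) = 0`, then `(-B) (M es) = 0` and `Yf … z *ᵥ es = Hf K (1 - z) *ᵥ (M *ᵥ es)` is analytic in the ball, against SNO.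
So `(v, es)_J ≠ 0`, that is `v_last ≠ 0`; by `Ac_last`, `cm (Am d) ^ (d - 1) v = v_last e_0 ≠ 0` and
`(v, cm (Am d) ^ (n - 1) v)_J = ± v_last ^ 2` (lower parts; `(Am d v)_low = Am n v_low` by EBL-type block form). -/
def S_RFL : Prop := ∀ (s n : ℕ) (Q : Polynomial ℚ), QO n Q → ∃ v : Fin (s + n) → ℂ, om (bl 0 0 (J0 n)) v v ≠ 0 ∧
  (cm (Am (s + n)) ^ (s + n - 1)) *ᵥ v ≠ 0 ∧
  om (bl 0 0 (J0 n)) v ((cm (Am (s + n)) ^ (n - 1)) *ᵥ v) ≠ 0 ∧
  rf (bl 0 0 (J0 n)) v ∈ Gal (Yf (cm (Am (s + n))) (Hc (s + n) (Polynomial.X ^ s * Q)))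

/-! ### groups generated by reflections -/

/-- closed under rational families -/
def Cl {d : ℕ} (S : Set (Matrix (Fin d) (Fin d) ℂ)) : Prop :=
  ∀ (M : Matrix (Fin d) (Fin d) (Polynomial ℂ)) (r : Polynomial ℂ),
    {t : ℂ | r.eval t ≠ 0 ∧ (r.eval t)⁻¹ • M.map (Polynomial.eval t) ∈ S}.Infinite →
      ∀ t, r.eval t ≠ 0 → (r.eval t)⁻¹ • M.map (Polynomial.eval t) ∈ S

/-- GCL. For `P ∈ Rel Y` and `x` the function `t ↦ r(t)^N * ev P x (log x) (Y x * (r(t)⁻¹ • M(t)))` is a polynomial in `t` for large `N`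
(clear denominators, compare `clr` in `P8H40/HA/Sp.lean`; or induction over `P`: there are `N` and a polynomial `q` with
`r(t)^N * ev P … = q(t)` for all `t` with `r(t) ≠ 0`); it vanishes at infinitely many `t`, so it is zero. -/
def S_GCL : Prop := ∀ (n : ℕ) (Y : ℂ → Matrix (Fin n) (Fin n) ℂ), Cl (Gal Y : Set (Matrix (Fin n) (Fin n) ℂ))

/-- Chebyshev numbers -/
noncomputable def uu (τ : ℂ) : ℕ → ℂ
  | 0 => 0
  | 1 => 1
  | (k + 2) => τ * uu τ (k + 1) - uu τ k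

/-- PLN. `ρ = rf x * rf y` acts on `a x + b y` by `(a, b) ↦ ((τ + 1) a + 2 γ b, -2 β a - b)` with `β = (x,y)/(y,y)`,
`γ = (x,y)/(x,x)`, `τ + 2 = 4 β γ`. By induction `ρ^k x = (uu (k+1) + uu k) x - 2 β uu k y`. As `uu (k+1) uu l - uu k uu (l+1) =
uu (l - k)` up to sign is not zero for `k ≠ l`, the vectors `ρ^k x` are pairwise not proportional; at most one of them is
proportional to `y`. `rf (ρ^k x) = ρ^k rf x ρ^(-k) ∈ S` (`ρ⁻¹ = rf y * rf x`, `rf (g x) = g (rf x) g⁻¹` for `g` preserving `J`;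
`rf (c x) = rf x`). So `rf (x + t y) ∈ S` for infinitely many `t`; `rf (x + t y) = r(t)⁻¹ • M(t)` with
`r(t) = (x + t y, x + t y)`, a polynomial, so `rf (x + t y) ∈ S` whenever `r(t) ≠ 0` (`Cl`). For `a = 0` use `rf y`. -/
def S_PLN : Prop := ∀ (d : ℕ) (J : Matrix (Fin d) (Fin d) ℂ) (S : Submonoid (Matrix (Fin d) (Fin d) ℂ)), J.transpose = J →
  Cl (S : Set (Matrix (Fin d) (Fin d) ℂ)) → ∀ x y : Fin d → ℂ, om J x x ≠ 0 → om J y y ≠ 0 → om J x y ≠ 0 →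
    (∀ k : ℕ, 1 ≤ k → uu (4 * om J x y ^ 2 / (om J x x * om J y y) - 2) k ≠ 0) → rf J x ∈ S → rf J y ∈ S →
      ∀ a b : ℂ, om J (a • x + b • y) (a • x + b • y) ≠ 0 → rf J (a • x + b • y) ∈ S

/-- CTB. `uu τ k` is a polynomial of degree `k - 1` in `τ`, monic. -/
def S_CTB : Prop := {τ : ℂ | ∃ k : ℕ, 1 ≤ k ∧ uu τ k = 0}.Countable

/-- ALR. Compare `exists_sub` in `Y119/HY/Grp.lean`. By induction on `r` there is a subspace `U` with `v ∈ U`, `finrank U ≥ r` and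
`rf x ∈ S` for all `x ∈ U` with `(x, x) ≠ 0` (`r = 1`: the line of `v`). Step: `U ≠ ⊤`, `l` a nonzero linear form which vanishes on
`U`. The polynomial `p(c) = (v, E c v)` is not constant (coefficient of `c^i`), `p(0) = (v, v) ≠ 0`. Choose `c` with
`l (E c v) ≠ 0` (`pl_ne`: all but finitely many `c`), `p(c) ≠ 0` and `τ₀ = 4 p(c)^2 / p(0)^2 - 2` not in the countable set of CTB
(all but countably many `c`, as `p` is not constant). Let `w = E c v`: `w ∉ U`, `(w, w) = (v, v)` (`E_isom`), `rf w = E c * rf v * E (-c) ∈ S`.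
Let `z = y + a w`, `y ∈ U`, `a ≠ 0`, `(z, z) ≠ 0` (`a = 0` is clear). For `η ∈ ℂ` let `y_η = y + η v`. For all but countably many
`η`: `(y_η, y_η) ≠ 0` (leading coefficient `(v, v)`), `(y_η, w) ≠ 0` (leading coefficient `(v, w)`), and
`τ(η) = 4 (y_η, w)^2 / ((y_η, y_η) (w, w)) - 2` is not in the countable set: for `τ` in this set, `τ ≠ τ₀`, the equation
`4 (y_η, w)^2 = (τ + 2) (y_η, y_η) (w, w)` is polynomial in `η` with the coefficient
`4 (v, w)^2 - (τ + 2) (v, v) (w, w) ≠ 0` at `η^2`. For such `η`, PLN gives `rf (y_η + a w) ∈ S` if `(y_η + a w, y_η + a w) ≠ 0`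
(all but finitely many `η`). `rf (y_η + a w)` is a rational family in `η`, so `Cl` gives `η = 0`. -/
def S_ALR : Prop := ∀ (d : ℕ) (J N : Matrix (Fin d) (Fin d) ℂ) (v : Fin d → ℂ) (S : Submonoid (Matrix (Fin d) (Fin d) ℂ)),
  J.transpose = J → N ^ d = 0 → N.transpose * J + J * N = 0 → (N ^ (d - 1)) *ᵥ v ≠ 0 → om J v v ≠ 0 →
    (∃ i : ℕ, 1 ≤ i ∧ om J v ((N ^ i) *ᵥ v) ≠ 0) → (∀ c : ℂ, ∀ g ∈ S, E N c * g * E N (-c) ∈ S) → rf J v ∈ S →
      Cl (S : Set (Matrix (Fin d) (Fin d) ℂ)) → ∀ x, om J x x ≠ 0 → rf J x ∈ S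

/-- CD (weak Cartan-Dieudonne). Take an orthogonal basis `x_1, …, x_n` of nonisotropic vectors
(`LinearMap.BilinForm.exists_orthogonal_basis`, nondegenerate symmetric form over `ℂ`). Let `g` preserve `J`. By induction on `k`
there is a product `h` of reflections such that `h g` fixes `x_1, …, x_k`: let `g` fix `x_1, …, x_{k-1}`; then `g x_k` is
orthogonal to them, and so are `y = g x_k - x_k` and `y' = g x_k + x_k`; `(y, y) + (y', y') = 4 (x_k, x_k) ≠ 0`. If `(y, y) ≠ 0`,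
`rf y (g x_k) = x_k`; otherwise `rf y' (g x_k) = -x_k` and `rf x_k * rf y' * g` fixes `x_k`; these reflections fix
`x_1, …, x_{k-1}`. At the end `h g = 1`, and `h⁻¹` is a product of reflections (`rf x * rf x = 1`). -/
def S_CD : Prop := ∀ (n : ℕ) (J : Matrix (Fin n) (Fin n) ℂ) (S : Submonoid (Matrix (Fin n) (Fin n) ℂ)), J.transpose = J →
  J.det ≠ 0 → (∀ x, om J x x ≠ 0 → rf J x ∈ S) → ∀ g, g.transpose * J * g = J → g ∈ S

/-- OGN. As `S_GEN` of MX. `x = (y, w)`: `rf (bl 0 0 J) x = bl 1 (-(2 / (w, w)) • y ⊗ (w J)) (rf J w)`. (1) With `y = 0` and CD: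
`bl 1 0 g ∈ S` for all orthogonal `g`. (2) `rf (y, w) * bl 1 0 (rf J w) = bl 1 ((2 / (w, w)) • y ⊗ (w J)) 1` since
`(w J) (rf J w) = -(w J)`. So `bl 1 (y ⊗ (w J)) 1 ∈ S` for all `y` and all nonisotropic `w`; every `w` is a sum of two
nonisotropic vectors. (3), (4) as in `S_GEN`. -/
def S_OGN : Prop := ∀ (s n : ℕ) (J : Matrix (Fin n) (Fin n) ℂ) (S : Submonoid (Matrix (Fin (s + n)) (Fin (s + n)) ℂ)),
  J.transpose = J → J.det ≠ 0 → (∀ x, om (bl 0 0 J) x x ≠ 0 → rf (bl 0 0 J) x ∈ S) →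
    ∀ b g, g.transpose * J * g = J → bl 1 b g ∈ S

/-- OHY. From RFL, ALR (with `N = cm (Am (s + n))`, `i = n - 1`, `conj_E` and `S_SOL` of MX), GCL, OGN, JZ, and
`(cm (Am (s + n)))ᵀ * bl 0 0 (J0 n) + bl 0 0 (J0 n) * cm (Am (s + n)) = 0` (block form of `Am (s + n)`, see `am_bl` in
`Pool/Agent/P8H5/MX/Blj.lean`). -/
def S_OHY : Prop := ∀ (s n : ℕ) (Q : Polynomial ℚ), QO n Q → ∀ (b : Matrix (Fin s) (Fin n) ℂ) (g : Matrix (Fin n) (Fin n) ℂ),
  g.transpose * J0 n * g = J0 n → bl 1 b g ∈ Gal (Yf (cm (Am (s + n))) (Hc (s + n) (Polynomial.X ^ s * Q)))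

/-- OCO. Coordinates on cosets. First `s = 0`: copy of `exists_coords` in `P8H40/HA/Sp.lean` with the generic skew symmetric matrix
(places `p.1 < p.2`, number `n (n - 1) / 2`) in the place of the generic symmetric matrix (`J` is now symmetric, `S = J⁻¹ A`
satisfies `Sᵀ J = -J S`, and `cayley` applies), and the entries of `h * g` in the place of those of `g` (the field
generated by the entries of `h * g` over `ℂ` contains the entries of `g = h⁻¹ (h g)`). Then add the `s n` places of the upper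
right block as in `S_COO` of MX. -/
def S_OCO : Prop := ∀ (s n : ℕ) (J h : Matrix (Fin n) (Fin n) ℂ), J.transpose = J → J.det ≠ 0 → h.det ≠ 0 →
  ∃ T : Fin (n * (n - 1) / 2 + s * n) → Fin (s + n) × Fin (s + n), ∀ P : MvPolynomial (Fin (n * (n - 1) / 2 + s * n)) ℂ,
    P ≠ 0 → ∃ (b : Matrix (Fin s) (Fin n) ℂ) (g : Matrix (Fin n) (Fin n) ℂ), g.transpose * J * g = J ∧
      MvPolynomial.eval (fun i => bl 1 b (h * g) (T i).1 (T i).2) P ≠ 0

/-- OIN. As `ind` in `P8H40/HA/Ind.lean` and `S_IND` of MX. For every `x ∈ (0, 1)` let `T_x` be the places of OCO for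
`h = Hf (Hc n Q) x` (invertible by FRH). By the pigeonhole principle some `T` equals `T_x` for infinitely many `x`. If `R₀ ≠ 0` is a relation between the
entries at `T`, one of these `x` is not a zero of a fixed nonzero coefficient of `R₀`, so `P_x = R₀(x, ·) ≠ 0`; take `b, g`
from OCO and apply `S_REL` of MX with `κ = bl 1 (b - b₀ g) g`, where `Hf (Hc (s + n) _) x = bl 1 b₀ h` (`S_HFB`): then
`Hf (Hc (s + n) _) x * κ = bl 1 b (h g)`. The hypothesis of `S_REL` follows from OHY, `S_EBL` and `E_isom`. -/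
def S_OIN : Prop := ∀ (s n : ℕ) (Q : Polynomial ℚ), QO n Q →
  ∃ T : Fin (n * (n - 1) / 2 + s * n) → Fin (s + n) × Fin (s + n),
    AlgebraicIndependent (Polynomial ℚ) (fun i => Hp (s + n) (Polynomial.X ^ s * Q) (T i).1 (T i).2)

/-! ### arithmetic -/

/-- OSD. Copy of `aq_QB`, `hq_den`, `sdc_hps` in `Y119/HY/Ari.lean` and of `S_SDH` of MX (`Pool/Agent/P8H85/MX/Sdh.lean`) for a product of
arbitrary rational linear factors: `aq n Q k = ∏ i, uq (γ i) k`. -/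
def S_OSD : Prop := ∀ (s n : ℕ) (γ : Fin n → ℚ), 2 ≤ n → (∀ i, ∀ l : ℕ, (l : ℚ) + γ i ≠ 0) →
  (∀ i j, SDc (Hp n (∏ i, (Polynomial.X + Polynomial.C (γ i))) i j)) ∧
    ∀ i j, SDc (HC s n (∏ i, (Polynomial.X + Polynomial.C (γ i))) i j)

/-- OWI. With `Wn = km J0q * (Hp n Q)ᵀ * (km J0q - X • km Em)` one has `Wn * Hp n Q = 1` (FRP, `J0q * J0q = 1`), so
`Hp n Q * Wn = 1`; `W = bl 1 (-(HC * Wn)) Wn` (as `S_WDC` of MX). -/
def S_OWI : Prop := ∀ (s n : ℕ) (Q : Polynomial ℚ), QO n Q → (∀ i j, SDc (Hp n Q i j)) → (∀ i j, SDc (HC s n Q i j)) →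
  ∃ W : Matrix (Fin (s + n)) (Fin (s + n)) ℚ⟦X⟧, Hp (s + n) (Polynomial.X ^ s * Q) * W = 1 ∧
    (∀ i j, SDc (Hp (s + n) (Polynomial.X ^ s * Q) i j)) ∧ ∀ i j, SDc (W i j)

/-- the polynomials `(θ + 1/2) ∏ (θ + α_j) (θ + 1 - α_j)` -/
noncomputable def Qo {m : ℕ} (α : Fin m → ℚ) : Polynomial ℚ := (Polynomial.X + Polynomial.C (1 / 2)) *
  ∏ j, ((Polynomial.X + Polynomial.C (α j)) * (Polynomial.X + Polynomial.C (1 - α j)))

/-- QOB. Elementary; the coefficient of degree `n - 1` is the sum of the roots with opposite sign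
(`Polynomial.nextCoeff`, `Polynomial.Monic.nextCoeff_mul`, `Polynomial.Monic.nextCoeff_prod`). -/
def S_QOB : Prop := ∀ (m : ℕ) (α : Fin m → ℚ), 1 ≤ m → (∀ j, ∀ a : ℤ, α j ≠ a) → QO (2 * m + 1) (Qo α) ∧
  ∃ γ : Fin (2 * m + 1) → ℚ, (∀ i, ∀ l : ℕ, (l : ℚ) + γ i ≠ 0) ∧ Qo α = ∏ i, (Polynomial.X + Polynomial.C (γ i))

end Pool.Agent.P8H30.OX
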